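import Mathlib.MeasureTheory.Measure.Haar.OfBasis
import Mathlib.Order.CompletePartialOrder

/-!
Preemptive schedules of unit jobs on two processors, normality, maximal schedules and
A-configurations (problem MP_21ba69_lc).
-/

set_option autoImplicit false

open Set MeasureTheory

namespace Pool.Agent.MP_21ba69_lc

/-- A preemptive schedule on two identical processors of the unit jobs `Fin n` with release dates
`r` and precedence relation `prec`.  `on i a` is the set of times at which processor `i` runs job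
`a`, a finite union of half-open intervals. -/
structure Schedule {n : ℕ} (r : Fin n → ℕ) (prec : Fin n → Fin n → Prop) where
  on : Fin 2 → Fin n → Set ℝ
  pieces : ∀ i a, ∃ s : Finset (ℝ × ℝ), on i a = ⋃ p ∈ s, Ico p.1 p.2
  one_job : ∀ i a b, a ≠ b → Disjoint (on i a) (on i b)
  one_proc : ∀ a, Disjoint (on 0 a) (on 1 a)
  total : ∀ a, volume (on 0 a ∪ on 1 a) = 1
  release : ∀ a, ∀ t ∈ on 0 a ∪ on 1 a, (r a : ℝ) ≤ t
  order : ∀ a b, prec a b → ∀ t ∈ on 0 b ∪ on 1 b, sSup (on 0 a ∪ on 1 a) ≤ t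

namespace Schedule

variable {n : ℕ} {r : Fin n → ℕ} {prec : Fin n → Fin n → Prop}

/-- The set of times at which job `a` runs. -/
def run (P : Schedule r prec) (a : Fin n) : Set ℝ := P.on 0 a ∪ P.on 1 a

/-- Start time `S(a)`. -/
noncomputable def start (P : Schedule r prec) (a : Fin n) : ℝ := sInf (P.run a)

/-- Completion time `C(a)`. -/
noncomputable def finish (P : Schedule r prec) (a : Fin n) : ℝ := sSup (P.run a)

/-- The total completion time is minimum. -/
def IsOptimal (P : Schedule r prec) : Prop :=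
  ∀ P' : Schedule r prec, ∑ a, P.finish a ≤ ∑ a, P'.finish a

/-- The increasing list of events: zero, the start times and the completion times. -/
noncomputable def events (P : Schedule r prec) : List ℝ :=
  (insert 0 (Finset.univ.image P.start ∪ Finset.univ.image P.finish)).sort (· ≤ ·)

/-- The event `e_i`, for `1 ≤ i ≤ q` with `q` the number of events. -/
noncomputable def ev (P : Schedule r prec) (i : ℕ) : ℝ := P.events.getD (i - 1) 0

/-- `ξ_i(a)`: the amount of job `a` processed in block `i`. -/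
noncomputable def xi (P : Schedule r prec) (i : ℕ) (a : Fin n) : ℝ :=
  (volume (P.run a ∩ Ico (P.ev i) (P.ev (i + 1)))).toReal

end Schedule

/-- `x` is an integer multiple of `2^{-l}`. -/
def IsNormalNum (l : ℕ) (x : ℝ) : Prop := ∃ z : ℤ, x = z / 2 ^ l

namespace Schedule

variable {n : ℕ} {r : Fin n → ℕ} {prec : Fin n → Fin n → Prop}

/-- Block `i` is `i`-normal. -/
def BlockNormal (P : Schedule r prec) (i : ℕ) : Prop :=
  IsNormalNum i (P.ev (i + 1) - P.ev i) ∧ ∀ a, IsNormalNum (i + 1) (P.xi i a)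

/-- Every block `1 ≤ i ≤ q - 1` is `i`-normal. -/
def IsNormal (P : Schedule r prec) : Prop :=
  ∀ i, 1 ≤ i → i < P.events.length → P.BlockNormal i

/-- The abnormality point: the least `i` whose block is not `i`-normal, infinity if none. -/
noncomputable def abnormalityPoint (P : Schedule r prec) : ℕ∞ :=
  ⨅ i ∈ {i : ℕ | 1 ≤ i ∧ i < P.events.length ∧ ¬ P.BlockNormal i}, (i : ℕ∞)

/-- The relation `P ⊴ P'`. -/
def Below (P P' : Schedule r prec) : Prop :=
  P = P' ∨ (P'.IsOptimal ∧ ¬ P.IsOptimal) ∨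
    (P.IsOptimal ∧ P'.IsOptimal ∧ P'.IsNormal ∧ ¬ P.IsNormal) ∨
    (P.IsOptimal ∧ P'.IsOptimal ∧ ¬ P.IsNormal ∧ ¬ P'.IsNormal ∧
      P.abnormalityPoint ≤ P'.abnormalityPoint)

/-- Maximal schedules. -/
def IsMaximal (P : Schedule r prec) : Prop := ∀ P' : Schedule r prec, P.Below P' → P'.Below P

/-- The schedule has an A-configuration (of some length `l > 0`, starting at some event `e_j`). -/
def HasAConfig (P : Schedule r prec) : Prop :=
  ∃ (a b : Fin n) (l : ℝ) (j j' : ℕ), 0 < l ∧ 1 ≤ j ∧ j < j' ∧ j' ≤ P.events.length ∧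
    P.finish a = P.ev j ∧ P.finish b = P.ev j' ∧
    (Ico (P.ev j - l) (P.ev j) ⊆ P.run a ∧
      ∀ l' : ℝ, l < l' → ¬ Ico (P.ev j - l') (P.ev j) ⊆ P.run a) ∧
    (Ico (P.ev j) (P.ev j') ⊆ P.run b ∧ Disjoint (Ico (P.ev j - l) (P.ev j)) (P.run b)) ∧
    P.start b < P.ev j - l ∧
    ∀ i, j ≤ i → i ≤ j' → i < P.events.length → ∀ c, P.xi i c ≠ 0 → ¬ prec a c ∧ ¬ prec c a

end Schedule

end Pool.Agent.MP_21ba69_lc
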