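import Mathlib.Topology.Sheaves.Presheaf
import Mathlib.Tactic.Monotonicity.Lemmas
import Mathlib.MeasureTheory.Measure.Lebesgue.Basic
import Mathlib.Data.List.GetD
import Mathlib.Combinatorics.SimpleGraph.Basic
import Pool.Agent.MP_21ba69_lc.Defs

-- ======== part 0: formerly Pool.Agent.MP_21ba69_lc.Basic
section MrgPart0

/-!
General facts on schedules: measure of the running sets, capacity of two processors,
existence of maximal schedules.
-/

set_option autoImplicit false

open Set MeasureTheory Filter Topology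

namespace Pool.Agent.MP_21ba69_lc

/-- finite unions of half-open intervals -/
def Pcs (X : Set ℝ) : Prop := ∃ s : Finset (ℝ × ℝ), X = ⋃ p ∈ s, Ico p.1 p.2

lemma Pcs.union {X Y : Set ℝ} (hX : Pcs X) (hY : Pcs Y) : Pcs (X ∪ Y) := by
  classical
  obtain ⟨s, rfl⟩ := hX
  obtain ⟨t, rfl⟩ := hY
  exact ⟨s ∪ t, by rw [Finset.set_biUnion_union]⟩

lemma Pcs.meas {X : Set ℝ} (hX : Pcs X) : MeasurableSet X := by
  obtain ⟨s, rfl⟩ := hX
  exact Finset.measurableSet_biUnion s fun _ _ => measurableSet_Ico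

lemma Pcs.bddAbove {X : Set ℝ} (hX : Pcs X) : BddAbove X := by
  obtain ⟨s, rfl⟩ := hX
  exact (Set.Finite.bddAbove_biUnion s.finite_toSet).2 fun _ _ => bddAbove_Ico

lemma Pcs.bddBelow {X : Set ℝ} (hX : Pcs X) : BddBelow X := by
  obtain ⟨s, rfl⟩ := hX
  exact (Set.Finite.bddBelow_biUnion s.finite_toSet).2 fun _ _ => bddBelow_Ico

lemma Pcs.right_mem {X : Set ℝ} (hX : Pcs X) {t : ℝ} (ht : t ∈ X) : ∀ᶠ u in 𝓝[≥] t, u ∈ X := by
  obtain ⟨s, rfl⟩ := hX
  simp only [mem_iUnion] at ht ⊢
  obtain ⟨p, hp, h1, h2⟩ := ht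
  filter_upwards [Ico_mem_nhdsGE h2] with u hu
  exact ⟨p, hp, h1.trans hu.1, hu.2⟩

lemma Pcs.right_notMem {X : Set ℝ} (hX : Pcs X) {t : ℝ} (ht : t ∉ X) :
    ∀ᶠ u in 𝓝[≥] t, u ∉ X := by
  obtain ⟨s, rfl⟩ := hX
  simp only [mem_iUnion, not_exists] at ht ⊢
  refine (Finset.eventually_all s).2 fun p hp => ?_
  have h := ht p hp
  rw [mem_Ico, not_and_or, not_le, not_lt] at h
  rcases h with h | h
  · filter_upwards [Ico_mem_nhdsGE h] with u hu hu'
    exact absurd hu'.1 (not_le.2 hu.2)
  · filter_upwards [self_mem_nhdsWithin] with u hu hu'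
    exact absurd hu'.2 (not_lt.2 (h.trans hu))

/-- the amount of `X` in `[p, q)` -/
noncomputable def amt (X : Set ℝ) (p q : ℝ) : ℝ := (volume (X ∩ Ico p q)).toReal

lemma vol_inter_ne_top (X : Set ℝ) (p q : ℝ) : volume (X ∩ Ico p q) ≠ ⊤ :=
  ne_top_of_le_ne_top (by simp) (measure_mono inter_subset_right)

lemma amt_nonneg (X : Set ℝ) (p q : ℝ) : 0 ≤ amt X p q := ENNReal.toReal_nonneg

lemma amt_le (X : Set ℝ) {p q : ℝ} (h : p ≤ q) : amt X p q ≤ q - p := by
  have : volume (X ∩ Ico p q) ≤ ENNReal.ofReal (q - p) := by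
    rw [← Real.volume_Ico]; exact measure_mono inter_subset_right
  exact ENNReal.toReal_le_of_le_ofReal (by linarith) this

lemma amt_add {X : Set ℝ} (hX : MeasurableSet X) {p q u : ℝ} (h1 : p ≤ q) (h2 : q ≤ u) :
    amt X p u = amt X p q + amt X q u := by
  unfold amt
  rw [← ENNReal.toReal_add (vol_inter_ne_top _ _ _) (vol_inter_ne_top _ _ _),
    ← measure_union _ (hX.inter measurableSet_Ico), ← inter_union_distrib_left,
    Ico_union_Ico_eq_Ico h1 h2]
  exact Disjoint.mono inter_subset_right inter_subset_right Ico_disjoint_Ico_same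

lemma amt_eq_zero {X : Set ℝ} {p q : ℝ} (h : ∀ t ∈ X, t < p ∨ q ≤ t) : amt X p q = 0 := by
  have : X ∩ Ico p q = ∅ := by
    ext t
    simp only [mem_inter_iff, mem_Ico, mem_empty_iff_false, iff_false, not_and]
    intro ht h1 h2
    rcases h t ht with h3 | h3 <;> linarith
  simp [amt, this]

lemma amt_of_subset {X : Set ℝ} {p q : ℝ} (hpq : p ≤ q) (h : Ico p q ⊆ X) : amt X p q = q - p := by
  rw [amt, inter_eq_self_of_subset_right h, Real.volume_Ico, ENNReal.toReal_ofReal (by linarith)]

lemma Pcs.subset_of_amt {X : Set ℝ} (hX : Pcs X) {p q : ℝ} (h : q - p ≤ amt X p q) :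
    Ico p q ⊆ X := by
  intro t ht
  by_contra hn
  obtain ⟨u, hu, hsub⟩ := mem_nhdsGE_iff_exists_Ico_subset.1 (hX.right_notMem hn)
  have hu' : t < u := hu
  have h1 : t < min u q := lt_min hu' ht.2
  have h2 := amt_add hX.meas ht.1 ht.2.le
  have h3 := amt_add hX.meas h1.le (min_le_right u q)
  have h4 : amt X t (min u q) = 0 := amt_eq_zero fun v hv => by
    by_contra hc
    push Not at hc
    exact hsub ⟨hc.1, hc.2.trans_le (min_le_left _ _)⟩ hv
  have h5 := amt_le X ht.1
  have h6 := amt_le X (min_le_right u q)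
  linarith

lemma Pcs.disjoint_of_amt {X : Set ℝ} (hX : Pcs X) {p q : ℝ} (h : amt X p q ≤ 0) :
    Disjoint (Ico p q) X := by
  rw [Set.disjoint_left]
  intro t ht hn
  obtain ⟨u, hu, hsub⟩ := mem_nhdsGE_iff_exists_Ico_subset.1 (hX.right_mem hn)
  have hu' : t < u := hu
  have h1 : t < min u q := lt_min hu' ht.2
  have h2 := amt_add hX.meas ht.1 ht.2.le
  have h3 := amt_add hX.meas h1.le (min_le_right u q)
  have h4 : amt X t (min u q) = min u q - t :=
    amt_of_subset h1.le fun v hv => hsub ⟨hv.1, hv.2.trans_le (min_le_left _ _)⟩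
  linarith [amt_nonneg X p t, amt_nonneg X (min u q) q]

namespace Schedule

variable {n : ℕ} {r : Fin n → ℕ} {prec : Fin n → Fin n → Prop} (P : Schedule r prec)

lemma pcs_on (i : Fin 2) (a : Fin n) : Pcs (P.on i a) := P.pieces i a

lemma pcs_run (a : Fin n) : Pcs (P.run a) := (P.pcs_on 0 a).union (P.pcs_on 1 a)

lemma run_nonempty (a : Fin n) : (P.run a).Nonempty := by
  rw [nonempty_iff_ne_empty]
  intro h
  have := P.total a
  change volume (P.run a) = 1 at this
  rw [h] at this
  simp at this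

lemma start_le {a : Fin n} {t : ℝ} (ht : t ∈ P.run a) : P.start a ≤ t :=
  csInf_le (P.pcs_run a).bddBelow ht

lemma lt_finish {a : Fin n} {t : ℝ} (ht : t ∈ P.run a) : t < P.finish a := by
  obtain ⟨u, hu, hsub⟩ := mem_nhdsGE_iff_exists_Ico_subset.1 ((P.pcs_run a).right_mem ht)
  have hu' : t < u := hu
  have : (t + u) / 2 ∈ P.run a := hsub ⟨by linarith, by linarith⟩
  have h2 : (t + u) / 2 ≤ P.finish a := le_csSup (P.pcs_run a).bddAbove this
  linarith

lemma release_le_start (a : Fin n) : (r a : ℝ) ≤ P.start a :=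
  le_csInf (P.run_nonempty a) (P.release a)

lemma finish_le_start {a b : Fin n} (h : prec a b) : P.finish a ≤ P.start b :=
  le_csInf (P.run_nonempty b) (P.order a b h)

lemma amt_all (a : Fin n) {p q : ℝ} (hp : p ≤ P.start a) (hq : P.finish a ≤ q) :
    amt (P.run a) p q = 1 := by
  have : P.run a ∩ Ico p q = P.run a := inter_eq_self_of_subset_left fun t ht =>
    ⟨hp.trans (P.start_le ht), (P.lt_finish ht).trans_le hq⟩
  rw [amt, this]
  have h := P.total a
  change volume (P.run a) = 1 at h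
  rw [h]; simp

lemma amt_after (a : Fin n) {p : ℝ} (q : ℝ) (hp : P.finish a ≤ p) : amt (P.run a) p q = 0 :=
  amt_eq_zero fun _ ht => Or.inl ((P.lt_finish ht).trans_le hp)

lemma amt_before (a : Fin n) (p : ℝ) {q : ℝ} (hq : q ≤ P.start a) : amt (P.run a) p q = 0 :=
  amt_eq_zero fun _ ht => Or.inr (hq.trans (P.start_le ht))

lemma start_le_finish (a : Fin n) : P.start a ≤ P.finish a := by
  obtain ⟨t, ht⟩ := P.run_nonempty a
  exact (P.start_le ht).trans (P.lt_finish ht).le

lemma start_add_one_le (a : Fin n) : P.start a + 1 ≤ P.finish a := by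
  have h1 := P.amt_all a le_rfl le_rfl
  have h2 := amt_le (P.run a) (P.start_le_finish a)
  linarith

/-- capacity of two processors -/
lemma capacity (S : Finset (Fin n)) {p q : ℝ} (h : p ≤ q) :
    ∑ a ∈ S, amt (P.run a) p q ≤ 2 * (q - p) := by
  have h1 : ∀ i : Fin 2, ∑ a ∈ S, amt (P.on i a) p q ≤ q - p := by
    intro i
    unfold amt
    rw [← ENNReal.toReal_sum (fun a _ => vol_inter_ne_top _ _ _),
      ← measure_biUnion_finset (fun a _ b _ hab =>
        Disjoint.mono inter_subset_left inter_subset_left (P.one_job i a b hab))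
        (fun a _ => (P.pcs_on i a).meas.inter measurableSet_Ico)]
    refine ENNReal.toReal_le_of_le_ofReal (by linarith) ?_
    rw [← Real.volume_Ico]
    exact measure_mono (iUnion₂_subset fun a _ => inter_subset_right)
  have h2 : ∀ a, amt (P.run a) p q ≤ amt (P.on 0 a) p q + amt (P.on 1 a) p q := by
    intro a
    unfold amt run
    rw [← ENNReal.toReal_add (vol_inter_ne_top _ _ _) (vol_inter_ne_top _ _ _),
      union_inter_distrib_right]
    exact ENNReal.toReal_mono (ENNReal.add_ne_top.2 ⟨vol_inter_ne_top _ _ _,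
      vol_inter_ne_top _ _ _⟩) (measure_union_le _ _)
  calc ∑ a ∈ S, amt (P.run a) p q ≤ ∑ a ∈ S, (amt (P.on 0 a) p q + amt (P.on 1 a) p q) :=
        Finset.sum_le_sum fun a _ => h2 a
    _ ≤ 2 * (q - p) := by rw [Finset.sum_add_distrib]; linarith [h1 0, h1 1]

/-- the amount of job `a` processed from time `t` on -/
noncomputable def tail (a : Fin n) (t : ℝ) : ℝ := amt (P.run a) t (max t (P.finish a))

lemma tail_eq (a : Fin n) {t H : ℝ} (h1 : t ≤ H) (h2 : P.finish a ≤ H) :
    P.tail a t = amt (P.run a) t H := by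
  rw [tail, amt_add (P.pcs_run a).meas (le_max_left t (P.finish a)) (max_le h1 h2),
    P.amt_after a H (le_max_right _ _), add_zero]

lemma tail_of_le_start (a : Fin n) {t : ℝ} (h : t ≤ P.start a) : P.tail a t = 1 :=
  P.amt_all a h (le_max_right _ _)

lemma tail_ge (a : Fin n) {s t : ℝ} (h : s ≤ P.start a) (hst : s ≤ t) :
    1 - (t - s) ≤ P.tail a t := by
  have h1 := P.amt_all a h (le_max_right t (P.finish a))
  rw [amt_add (P.pcs_run a).meas hst (le_max_left _ _)] at h1
  have h2 := amt_le (P.run a) hst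
  unfold tail
  linarith

lemma tail_le (a : Fin n) {t : ℝ} (h : 0 < P.tail a t) : t + P.tail a t ≤ P.finish a := by
  rcases le_total t (P.finish a) with h1 | h1
  · have := amt_le (P.run a) h1
    rw [P.tail_eq a h1 le_rfl]
    linarith
  · rw [tail, P.amt_after a _ h1] at h
    exact absurd h (lt_irrefl 0)

/-- the two largest completion times of a set of jobs bound its remaining work -/
lemma pair (S : Finset (Fin n)) {a : Fin n} (ha : a ∈ S) {t c : ℝ} (htc : t ≤ c)
    (hc : c ≤ P.finish a) (h : ∀ b ∈ S, b ≠ a → P.finish b ≤ c) :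
    ∑ b ∈ S, P.tail b t ≤ c + P.finish a - 2 * t := by
  have h1 : ∀ b ∈ S, P.tail b t = amt (P.run b) t c + amt (P.run b) c (P.finish a) := by
    intro b hb
    rw [← amt_add (P.pcs_run b).meas htc hc]
    refine P.tail_eq b (htc.trans hc) ?_
    by_cases hba : b = a
    · rw [hba]
    · exact (h b hb hba).trans hc
  rw [Finset.sum_congr rfl h1, Finset.sum_add_distrib]
  have h2 := P.capacity S htc
  have h3 : ∑ b ∈ S, amt (P.run b) c (P.finish a) = amt (P.run a) c (P.finish a) :=
    Finset.sum_eq_single_of_mem a ha fun b hb hba => P.amt_after b _ (h b hb hba)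
  have h4 := amt_le (P.run a) hc
  linarith

lemma three {a b c : Fin n} (hab : a ≠ b) (hac : a ≠ c) (hbc : b ≠ c) {t : ℝ}
    (ha : t ≤ P.start a) (hb : t ≤ P.start b) (hc : t ≤ P.start c) :
    3 * t + 4 ≤ P.finish a + P.finish b + P.finish c ∧
      ∀ u, P.finish a ≤ u → P.finish b ≤ u → P.finish c ≤ u → t + 3 / 2 ≤ u := by
  have key : ∀ {a b c : Fin n}, a ≠ b → a ≠ c → b ≠ c → t ≤ P.start a → t ≤ P.start b →
      t ≤ P.start c → P.finish a ≤ P.finish b → P.finish b ≤ P.finish c →
      2 * t + 3 ≤ P.finish b + P.finish c := by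
    intro a b c hab hac hbc ha hb hc h1 h2
    have := P.pair {a, b, c} (a := c) (by simp) (t := t) (c := P.finish b)
      (hb.trans (P.start_le_finish b)) h2 (by
        intro x hx hxc
        simp only [Finset.mem_insert, Finset.mem_singleton] at hx
        rcases hx with rfl | rfl | rfl
        · exact h1
        · exact le_rfl
        · exact absurd rfl hxc)
    rw [Finset.sum_insert (by simp [hab, hac]), Finset.sum_insert (by simp [hbc]),
      Finset.sum_singleton, P.tail_of_le_start a ha, P.tail_of_le_start b hb,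
      P.tail_of_le_start c hc] at this
    linarith
  have fa := P.start_add_one_le a
  have fb := P.start_add_one_le b
  have fc := P.start_add_one_le c
  rcases le_total (P.finish a) (P.finish b) with h1 | h1 <;>
    rcases le_total (P.finish b) (P.finish c) with h2 | h2 <;>
    rcases le_total (P.finish a) (P.finish c) with h3 | h3
  all_goals first
    | (have := key hab hac hbc ha hb hc h1 h2
       exact ⟨by linarith, fun u _ _ _ => by linarith⟩)
    | (have := key hac hab hbc.symm ha hc hb h3 h2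
       exact ⟨by linarith, fun u _ _ _ => by linarith⟩)
    | (have := key hac.symm hbc.symm hab hc ha hb h3 h1
       exact ⟨by linarith, fun u _ _ _ => by linarith⟩)
    | (have := key hab.symm hbc hac hb ha hc h1 h3
       exact ⟨by linarith, fun u _ _ _ => by linarith⟩)
    | (have := key hbc hab.symm hac.symm hb hc ha h2 h3
       exact ⟨by linarith, fun u _ _ _ => by linarith⟩)
    | (have := key hbc.symm hac.symm hab.symm hc hb ha h2 h1
       exact ⟨by linarith, fun u _ _ _ => by linarith⟩)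

lemma events_length_le : P.events.length ≤ 2 * n + 1 := by
  unfold events
  rw [Finset.length_sort]
  refine (Finset.card_insert_le _ _).trans ?_
  have h1 := Finset.card_union_le (Finset.univ.image P.start) (Finset.univ.image P.finish)
  have h2 := Finset.card_image_le (s := Finset.univ) (f := P.start)
  have h3 := Finset.card_image_le (s := Finset.univ) (f := P.finish)
  simp only [Finset.card_univ, Fintype.card_fin] at h2 h3
  omega

lemma exists_ev_finish (a : Fin n) :
    ∃ j, 1 ≤ j ∧ j ≤ P.events.length ∧ P.finish a = P.ev j := by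
  have : P.finish a ∈ P.events := by
    unfold events
    rw [Finset.mem_sort]
    simp
  obtain ⟨k, hk, h⟩ := List.getElem_of_mem this
  refine ⟨k + 1, by omega, by omega, ?_⟩
  rw [ev, Nat.add_sub_cancel, List.getD_eq_getElem _ _ hk, h]

lemma ev_mono {i j : ℕ} (hij : i ≤ j) (hj : j ≤ P.events.length) (h1 : 1 ≤ j) :
    P.ev i ≤ P.ev j := by
  have hj' : j - 1 < P.events.length := by omega
  have hi' : i - 1 < P.events.length := by omega
  rw [ev, ev, List.getD_eq_getElem _ _ hi', List.getD_eq_getElem _ _ hj']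
  rcases (show i - 1 ≤ j - 1 by omega).lt_or_eq with h | h
  · exact List.pairwise_iff_getElem.1 (Finset.pairwise_sort _ (· ≤ ·)) _ _ hi' hj' h
  · simp only [h, le_refl]

lemma optimal_of_maximal (hP : P.IsMaximal) {Q : Schedule r prec} (hQ : Q.IsOptimal) :
    P.IsOptimal := by
  by_contra hn
  rcases hP Q (Or.inr (Or.inl ⟨hQ, hn⟩)) with h | h | h | h
  · exact hn (h ▸ hQ)
  · exact hn h.1
  · exact hn h.2.1
  · exact hn h.2.1

lemma exists_maximal (hP : P.IsOptimal) : ∃ Q : Schedule r prec, Q.IsMaximal := by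
  by_cases h : ∃ Q : Schedule r prec, Q.IsOptimal ∧ Q.IsNormal
  · obtain ⟨Q, h1, h2⟩ := h
    refine ⟨Q, fun Q' hQ' => ?_⟩
    rcases hQ' with h | h | h | h
    · exact Or.inl h.symm
    · exact absurd h1 h.2
    · exact absurd h2 h.2.2.2
    · exact absurd h2 h.2.2.1
  · push Not at h
    have hb : ∀ Q : Schedule r prec, Q.IsOptimal → Q.abnormalityPoint ≤ (2 * n + 1 : ℕ) := by
      intro Q hQ
      have := h Q hQ
      unfold IsNormal at this
      push Not at this
      obtain ⟨i, h1, h2, h3⟩ := this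
      refine le_trans (iInf₂_le i ⟨h1, h2, h3⟩) ?_
      exact_mod_cast h2.le.trans Q.events_length_le
    have hfin : (abnormalityPoint '' {Q : Schedule r prec | Q.IsOptimal}).Finite := by
      refine ((Set.finite_Iic (2 * n + 1)).image (fun k : ℕ => (k : ℕ∞))).subset ?_
      rintro _ ⟨Q, hQ, rfl⟩
      obtain ⟨k, hk, hk'⟩ := ENat.le_natCast_iff.1 (hb Q hQ)
      exact ⟨k, hk', hk.symm⟩
    obtain ⟨_, ⟨Q, hQ, rfl⟩, hmax⟩ := hfin.exists_maximal ⟨_, P, hP, rfl⟩
    refine ⟨Q, fun Q' hQ' => ?_⟩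
    rcases hQ' with h' | h' | h' | h'
    · exact Or.inl h'.symm
    · exact absurd hQ h'.2
    · exact absurd h'.2.2.1 (h Q' h'.2.1)
    · exact Or.inr (Or.inr (Or.inr ⟨h'.2.1, h'.1, h'.2.2.2.1, h'.2.2.1,
        hmax ⟨Q', h'.2.1, rfl⟩ h'.2.2.2.2⟩))

end Schedule

end Pool.Agent.MP_21ba69_lc

end MrgPart0

-- ======== part 1: formerly Pool.Agent.MP_21ba69_lc.Main
section MrgPart1

/-!
The instance: jobs `0,1,2` precede `3,4`; jobs `5,6` are released at time `2` and precede `7`,
which precedes `8,9,10`.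
-/

set_option autoImplicit false

open Set MeasureTheory Filter Topology

namespace Pool.Agent.MP_21ba69_lc

/-- release dates -/
def r0 : Fin 11 → ℕ := ![0, 0, 0, 0, 0, 2, 2, 0, 0, 0, 0]

/-- precedence -/
def prec0 (i j : Fin 11) : Prop :=
  (i.val ≤ 2 ∧ (j.val = 3 ∨ j.val = 4)) ∨ ((i.val = 5 ∨ i.val = 6) ∧ 7 ≤ j.val) ∨
    (i.val = 7 ∧ 8 ≤ j.val)

instance : DecidableRel prec0 := fun i j => by unfold prec0; infer_instance

lemma prec0_strict : IsStrictOrder (Fin 11) prec0 where
  irrefl := by decide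
  trans := by decide

/-- left ends in half units -/
def lo : Fin 2 → Fin 11 → ℕ := ![![0, 2, 0, 3, 7, 4, 0, 6, 8, 0, 10], ![0, 0, 1, 6, 3, 0, 4, 7, 0, 8, 0]]

/-- right ends in half units -/
def hi : Fin 2 → Fin 11 → ℕ :=
  ![![2, 3, 0, 4, 8, 6, 0, 7, 10, 0, 12], ![0, 1, 3, 7, 4, 0, 6, 8, 0, 10, 0]]

lemma disj_of {l h l' h' : ℕ} (H : min h h' ≤ max l l') :
    Disjoint (Ico ((l : ℝ) / 2) (h / 2)) (Ico ((l' : ℝ) / 2) (h' / 2)) := by
  rw [Set.disjoint_left]
  rintro t ⟨h1, h2⟩ ⟨h3, h4⟩
  have : ((min h h' : ℕ) : ℝ) ≤ (max l l' : ℕ) := by exact_mod_cast H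
  push_cast at this
  rcases le_total (h : ℝ) h' with k | k <;> rcases le_total (l : ℝ) l' with k' | k' <;>
    simp only [min_eq_left k, min_eq_right k, max_eq_left k', max_eq_right k'] at this <;> linarith

lemma sSup_le_hi (a : Fin 11) :
    sSup (Ico ((lo 0 a : ℝ) / 2) (hi 0 a / 2) ∪ Ico ((lo 1 a : ℝ) / 2) (hi 1 a / 2)) ≤
      ((max (hi 0 a) (hi 1 a) : ℕ) : ℝ) / 2 := by
  refine Real.sSup_le ?_ (by positivity)
  push_cast
  rintro t (ht | ht)
  · linarith [ht.2, le_max_left (hi 0 a : ℝ) (hi 1 a)]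
  · linarith [ht.2, le_max_right (hi 0 a : ℝ) (hi 1 a)]

lemma lower_of_mem {k : ℕ} {a : Fin 11} (h : ∀ i, hi i a ≤ lo i a ∨ k ≤ lo i a) {t : ℝ}
    (ht : t ∈ Ico ((lo 0 a : ℝ) / 2) (hi 0 a / 2) ∪ Ico ((lo 1 a : ℝ) / 2) (hi 1 a / 2)) :
    (k : ℝ) / 2 ≤ t := by
  have key : ∀ i, t ∈ Ico ((lo i a : ℝ) / 2) (hi i a / 2) → (k : ℝ) / 2 ≤ t := by
    intro i hi'
    rcases h i with h1 | h1
    · have : (hi i a : ℝ) ≤ lo i a := by exact_mod_cast h1
      linarith [hi'.1, hi'.2]
    · have : (k : ℝ) ≤ lo i a := by exact_mod_cast h1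
      linarith [hi'.1]
  rcases ht with ht | ht
  · exact key 0 ht
  · exact key 1 ht

/-- an optimal schedule -/
noncomputable def P0 : Schedule r0 prec0 where
  on i a := Ico ((lo i a : ℝ) / 2) (hi i a / 2)
  pieces i a := ⟨{((lo i a : ℝ) / 2, (hi i a : ℝ) / 2)}, by simp⟩
  one_job i a b h := disj_of (by revert i a b; decide)
  one_proc a := disj_of (by revert a; decide)
  total a := by
    rw [measure_union (disj_of (by revert a; decide)) measurableSet_Ico, Real.volume_Ico,
      Real.volume_Ico]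
    have h1 : lo 0 a ≤ hi 0 a ∧ lo 1 a ≤ hi 1 a ∧ hi 0 a + hi 1 a = lo 0 a + lo 1 a + 2 := by
      revert a; decide
    have h2 : (lo 0 a : ℝ) ≤ hi 0 a := by exact_mod_cast h1.1
    have h3 : (lo 1 a : ℝ) ≤ hi 1 a := by exact_mod_cast h1.2.1
    have h4 : (hi 0 a : ℝ) + hi 1 a = lo 0 a + lo 1 a + 2 := by exact_mod_cast h1.2.2
    rw [← ENNReal.ofReal_add (by linarith) (by linarith), ← ENNReal.ofReal_one]
    congr 1
    linarith
  release a t ht := by
    have := lower_of_mem (k := 2 * r0 a) (by clear ht; revert a; decide) ht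
    push_cast at this
    linarith
  order a b h t ht :=
    (sSup_le_hi a).trans (lower_of_mem (by clear ht; revert a b; decide) ht)

lemma P0_cost : ∑ a, P0.finish a ≤ 75 / 2 := by
  have h : ∑ a, P0.finish a ≤ ∑ a : Fin 11, ((max (hi 0 a) (hi 1 a) : ℕ) : ℝ) / 2 :=
    Finset.sum_le_sum fun a _ => sSup_le_hi a
  refine h.trans (le_of_eq ?_)
  rw [← Finset.sum_div, ← Nat.cast_sum]
  have : ∑ a : Fin 11, max (hi 0 a) (hi 1 a) = 75 := by decide
  rw [this]; norm_num

section core

variable {n : ℕ} {r : Fin n → ℕ} {prec : Fin n → Fin n → Prop} (P : Schedule r prec)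

/-- the middle part of the lower bound -/
lemma core {a b c d e : Fin n} (hab : a ≠ b) (hac : a ≠ c) (had : a ≠ d) (hae : a ≠ e)
    (hbc : b ≠ c) (hbd : b ≠ d) (hbe : b ≠ e) (hcd : c ≠ d) (hce : c ≠ e) (hde : d ≠ e)
    (ha : 3 / 2 ≤ P.start a) (hb : 3 / 2 ≤ P.start b) (hc : 2 ≤ P.start c) (hd : 2 ≤ P.start d)
    (h1 : P.finish c ≤ P.start e) (h2 : P.finish d ≤ P.start e)
    (o1 : P.finish a ≤ P.finish b) (o2 : P.finish c ≤ P.finish d) :
    27 / 2 ≤ P.finish a + P.finish b + P.finish c + P.finish d + 4 * (P.finish e - 4) ∧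
    (P.finish a + P.finish b + P.finish c + P.finish d + 4 * (P.finish e - 4) ≤ 27 / 2 →
      P.finish a = 7 / 2 ∧ P.finish b = 4 ∧ P.finish c = 3 ∧ P.finish d = 3 ∧ P.finish e = 4) := by
  have ta := P.tail_ge a ha (t := 2) (by norm_num)
  have tb := P.tail_ge b hb (t := 2) (by norm_num)
  have tc := P.tail_of_le_start c hc
  have td := P.tail_of_le_start d hd
  have fa := P.start_add_one_le a
  have fb := P.start_add_one_le b
  have fc := P.start_add_one_le c
  have fd := P.start_add_one_le d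
  have fe := P.start_add_one_le e
  have te := P.tail_of_le_start e (t := 2) (by linarith)
  have s3 : ∑ x ∈ {a, c, d}, P.tail x 2 = P.tail a 2 + P.tail c 2 + P.tail d 2 := by
    rw [Finset.sum_insert (by simp [hac, had]), Finset.sum_insert (by simp [hcd]),
      Finset.sum_singleton, add_assoc]
  have s4 : ∑ x ∈ {b, a, c, d}, P.tail x 2 =
      P.tail b 2 + (P.tail a 2 + P.tail c 2 + P.tail d 2) := by
    rw [Finset.sum_insert (by simp [hab.symm, hbc, hbd]), s3]
  have s5 : ∑ x ∈ {e, b, a, c, d}, P.tail x 2 =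
      P.tail e 2 + (P.tail b 2 + (P.tail a 2 + P.tail c 2 + P.tail d 2)) := by
    rw [Finset.sum_insert (by simp [hae.symm, hbe.symm, hce.symm, hde.symm]), s4]
  have p3 : ∀ x ∈ ({a, c, d} : Finset (Fin n)), ∀ u : ℝ, 2 ≤ u → u ≤ P.finish x →
      (a ≠ x → P.finish a ≤ u) → (c ≠ x → P.finish c ≤ u) → (d ≠ x → P.finish d ≤ u) →
      13 / 2 ≤ u + P.finish x := by
    intro x hx u k1 k2 k3 k4 k5
    have := P.pair _ hx k1 k2 (by
      intro y hy hyx
      simp only [Finset.mem_insert, Finset.mem_singleton] at hy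
      rcases hy with rfl | rfl | rfl
      exacts [k3 hyx, k4 hyx, k5 hyx])
    rw [s3] at this
    linarith
  have p4 : ∀ x ∈ ({b, a, c, d} : Finset (Fin n)), ∀ u : ℝ, 2 ≤ u → u ≤ P.finish x →
      (b ≠ x → P.finish b ≤ u) → (a ≠ x → P.finish a ≤ u) → (c ≠ x → P.finish c ≤ u) →
      (d ≠ x → P.finish d ≤ u) → 7 ≤ u + P.finish x := by
    intro x hx u k1 k2 k0 k3 k4 k5
    have := P.pair _ hx k1 k2 (by
      intro y hy hyx
      simp only [Finset.mem_insert, Finset.mem_singleton] at hy
      rcases hy with rfl | rfl | rfl | rfl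
      exacts [k0 hyx, k3 hyx, k4 hyx, k5 hyx])
    rw [s4] at this
    linarith
  have p5 : ∀ x ∈ ({e, b, a, c, d} : Finset (Fin n)), ∀ u : ℝ, 2 ≤ u → u ≤ P.finish x →
      (e ≠ x → P.finish e ≤ u) → (b ≠ x → P.finish b ≤ u) → (a ≠ x → P.finish a ≤ u) →
      (c ≠ x → P.finish c ≤ u) → (d ≠ x → P.finish d ≤ u) → 8 ≤ u + P.finish x := by
    intro x hx u k1 k2 k6 k0 k3 k4 k5
    have := P.pair _ hx k1 k2 (by
      intro y hy hyx
      simp only [Finset.mem_insert, Finset.mem_singleton] at hy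
      rcases hy with rfl | rfl | rfl | rfl | rfl
      exacts [k6 hyx, k0 hyx, k3 hyx, k4 hyx, k5 hyx])
    rw [s5] at this
    linarith
  rcases le_total (P.finish d) (P.finish b) with c1 | c1
  · have q5 : 8 ≤ P.finish b + P.finish e := by
      rcases le_total (P.finish b) (P.finish e) with c2 | c2
      · exact p5 e (by simp) _ (by linarith) c2 (fun h => absurd rfl h) (fun _ => le_rfl)
          (fun _ => o1) (fun _ => by linarith) (fun _ => c1)
      · linarith
    rcases le_total (P.finish d) (P.finish a) with c3 | c3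
    · have q3 := p3 a (by simp) _ (by linarith) c3 (fun h => absurd rfl h) (fun _ => o2)
        (fun _ => le_rfl)
      exact ⟨by linarith, fun h => ⟨by linarith, by linarith, by linarith, by linarith,
        by linarith⟩⟩
    · rcases le_total (P.finish a) (P.finish c) with c4 | c4
      · have q3 := p3 d (by simp) _ (by linarith) o2 (fun _ => c4) (fun _ => le_rfl)
          (fun h => absurd rfl h)
        exact ⟨by linarith, fun h => by exfalso; linarith⟩
      · have q3 := p3 d (by simp) _ (by linarith) c3 (fun _ => le_rfl) (fun _ => c4)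
          (fun h => absurd rfl h)
        exact ⟨by linarith, fun h => by exfalso; linarith⟩
  · rcases le_total (P.finish b) (P.finish c) with c4 | c4
    · have q4 := p4 d (by simp) _ (by linarith) o2 (fun _ => c4) (fun _ => by linarith)
        (fun _ => le_rfl) (fun h => absurd rfl h)
      exact ⟨by linarith, fun h => by exfalso; linarith⟩
    · have q4 := p4 d (by simp) _ (by linarith) c1 (fun _ => le_rfl) (fun _ => o1)
        (fun _ => c4) (fun h => absurd rfl h)
      exact ⟨by linarith, fun h => by exfalso; linarith⟩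

/-- the forced shape gives an A-configuration -/
lemma aconfig {a b c d e : Fin n} (hab : a ≠ b) (hac : a ≠ c) (had : a ≠ d) (hae : a ≠ e)
    (hbc : b ≠ c) (hbd : b ≠ d) (hbe : b ≠ e) (hcd : c ≠ d)
    (ha : 3 / 2 ≤ P.start a) (hb : 3 / 2 ≤ P.start b) (hc : 2 ≤ P.start c) (hd : 2 ≤ P.start d)
    (h1 : P.finish c ≤ P.start e) (ea : P.finish a = 7 / 2) (eb : P.finish b = 4)
    (ec : P.finish c = 3) (ed : P.finish d = 3) (ee : P.finish e = 4) (hsucc : ∀ x, ¬ prec a x) :
    P.HasAConfig := by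
  have ma := (P.pcs_run a).meas
  have mb := (P.pcs_run b).meas
  have me := (P.pcs_run e).meas
  have c1 := P.amt_all c hc ec.le
  have d1 := P.amt_all d hd ed.le
  have e1 := P.amt_all e (ec.ge.trans h1) ee.le
  have a1 := P.amt_all a ha ea.le
  have b1 := P.amt_all b hb eb.le
  have cap1 := P.capacity {a, c, d} (p := 2) (q := 3) (by norm_num)
  have cap2 := P.capacity {b, c, d} (p := 2) (q := 3) (by norm_num)
  have cap3 := P.capacity {a, b, e} (p := 3) (q := 7 / 2) (by norm_num)
  rw [Finset.sum_insert (by simp [hac, had]), Finset.sum_insert (by simp [hcd]),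
    Finset.sum_singleton] at cap1
  rw [Finset.sum_insert (by simp [hbc, hbd]), Finset.sum_insert (by simp [hcd]),
    Finset.sum_singleton] at cap2
  rw [Finset.sum_insert (by simp [hab, hae]), Finset.sum_insert (by simp [hbe]),
    Finset.sum_singleton] at cap3
  rw [amt_add me (q := 7 / 2) (by norm_num) (by norm_num)] at e1
  rw [amt_add ma (q := 2) (by norm_num) (by norm_num),
    amt_add ma (p := 2) (q := 3) (by norm_num) (by norm_num)] at a1
  rw [amt_add mb (q := 2) (by norm_num) (by norm_num),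
    amt_add mb (p := 2) (q := 3) (by norm_num) (by norm_num),
    amt_add mb (p := 3) (q := 7 / 2) (by norm_num) (by norm_num)] at b1
  have l1 := amt_le (P.run a) (p := 3 / 2) (q := 2) (by norm_num)
  have l2 := amt_le (P.run b) (p := 3 / 2) (q := 2) (by norm_num)
  have l3 := amt_le (P.run e) (p := 7 / 2) (q := 4) (by norm_num)
  have l4 := amt_le (P.run b) (p := 7 / 2) (q := 4) (by norm_num)
  have n1 := amt_nonneg (P.run b) 3 (7 / 2)
  have A1 : Ico 3 (7 / 2) ⊆ P.run a := (P.pcs_run a).subset_of_amt (by linarith)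
  have A2 : Disjoint (Ico 2 3) (P.run a) := (P.pcs_run a).disjoint_of_amt (by linarith)
  have B1 : Disjoint (Ico 3 (7 / 2)) (P.run b) := (P.pcs_run b).disjoint_of_amt (by linarith)
  have B2 : Ico (7 / 2) 4 ⊆ P.run b := (P.pcs_run b).subset_of_amt (by linarith)
  have B3 : Ico (3 / 2) 2 ⊆ P.run b := (P.pcs_run b).subset_of_amt (by linarith)
  have B4 : P.start b ≤ 3 / 2 := P.start_le (B3 ⟨le_rfl, by norm_num⟩)
  obtain ⟨j, j1, j2, j3⟩ := P.exists_ev_finish a
  obtain ⟨k, k1, k2, k3⟩ := P.exists_ev_finish b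
  have hj : P.ev j = 7 / 2 := by rw [← j3, ea]
  have hk : P.ev k = 4 := by rw [← k3, eb]
  have hjk : j < k := by
    by_contra hn
    have := P.ev_mono (not_lt.1 hn) j2 j1
    linarith
  have h3 : P.ev j - 1 / 2 = 3 := by rw [hj]; norm_num
  refine ⟨a, b, 1 / 2, j, k, by norm_num, j1, hjk, k2, j3, k3, ⟨?_, ?_⟩, ⟨?_, ?_⟩, ?_, ?_⟩
  · rw [h3, hj]; exact A1
  · intro l' hl' hsub
    have hm : max 2 (P.ev j - l') < 3 := max_lt (by norm_num) (by linarith)
    exact Set.disjoint_left.1 A2 ⟨le_max_left _ _, hm⟩ (hsub ⟨le_max_right _ _, by linarith⟩)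
  · rw [hj, hk]; exact B2
  · rw [h3, hj]; exact B1
  · linarith
  · intro i i1 _ i3 x hx
    refine ⟨hsucc x, fun hxa => hx ?_⟩
    have h4 := P.finish_le_start hxa
    have h5 := P.ev_mono i1 i3.le (j1.trans i1)
    have h6 := P.start_le_finish a
    exact P.amt_after x _ (by linarith)

end core

lemma analysis (P : Schedule r0 prec0) :
    75 / 2 ≤ ∑ a, P.finish a ∧ (∑ a, P.finish a ≤ 75 / 2 → P.HasAConfig) := by
  have r := P.release_le_start
  have r0' : (0 : ℝ) ≤ P.start 0 := by simpa [r0] using r 0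
  have r1 : (0 : ℝ) ≤ P.start 1 := by simpa [r0] using r 1
  have r2 : (0 : ℝ) ≤ P.start 2 := by simpa [r0] using r 2
  have r5 : (2 : ℝ) ≤ P.start 5 := by simpa [r0] using r 5
  have r6 : (2 : ℝ) ≤ P.start 6 := by simpa [r0] using r 6
  obtain ⟨x1, x2⟩ := P.three (a := 0) (b := 1) (c := 2) (by decide) (by decide) (by decide)
    r0' r1 r2
  have s3 : 3 / 2 ≤ P.start 3 := by
    have := x2 _ (P.finish_le_start (a := 0) (b := 3) (by decide))
      (P.finish_le_start (a := 1) (b := 3) (by decide))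
      (P.finish_le_start (a := 2) (b := 3) (by decide))
    linarith
  have s4 : 3 / 2 ≤ P.start 4 := by
    have := x2 _ (P.finish_le_start (a := 0) (b := 4) (by decide))
      (P.finish_le_start (a := 1) (b := 4) (by decide))
      (P.finish_le_start (a := 2) (b := 4) (by decide))
    linarith
  obtain ⟨y1, -⟩ := P.three (a := 8) (b := 9) (c := 10) (by decide) (by decide) (by decide)
    (P.finish_le_start (a := 7) (by decide)) (P.finish_le_start (a := 7) (by decide))
    (P.finish_le_start (a := 7) (by decide))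
  have f5 := P.finish_le_start (a := 5) (b := 7) (by decide)
  have f6 := P.finish_le_start (a := 6) (b := 7) (by decide)
  have hsum : ∑ a, P.finish a = P.finish 0 + P.finish 1 + P.finish 2 + P.finish 3 + P.finish 4 +
      P.finish 5 + P.finish 6 + P.finish 7 + P.finish 8 + P.finish 9 + P.finish 10 := by
    simp only [Fin.sum_univ_succ, Fin.sum_univ_zero]
    simp
    ring
  rw [hsum]
  rcases le_total (P.finish 3) (P.finish 4) with o1 | o1 <;>
    rcases le_total (P.finish 5) (P.finish 6) with o2 | o2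
  · obtain ⟨k1, k2⟩ := core P (a := 3) (b := 4) (c := 5) (d := 6) (e := 7) (by decide) (by decide)
      (by decide) (by decide) (by decide) (by decide) (by decide) (by decide) (by decide)
      (by decide) s3 s4 r5 r6 f5 f6 o1 o2
    refine ⟨by linarith, fun h => ?_⟩
    obtain ⟨e1, e2, e3, e4, e5⟩ := k2 (by linarith)
    exact aconfig P (a := 3) (b := 4) (c := 5) (d := 6) (e := 7) (by decide) (by decide)
      (by decide) (by decide) (by decide) (by decide) (by decide) (by decide) s3 s4 r5 r6 f5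
      e1 e2 e3 e4 e5 (by decide)
  · obtain ⟨k1, k2⟩ := core P (a := 3) (b := 4) (c := 6) (d := 5) (e := 7) (by decide) (by decide)
      (by decide) (by decide) (by decide) (by decide) (by decide) (by decide) (by decide)
      (by decide) s3 s4 r6 r5 f6 f5 o1 o2
    refine ⟨by linarith, fun h => ?_⟩
    obtain ⟨e1, e2, e3, e4, e5⟩ := k2 (by linarith)
    exact aconfig P (a := 3) (b := 4) (c := 6) (d := 5) (e := 7) (by decide) (by decide)
      (by decide) (by decide) (by decide) (by decide) (by decide) (by decide) s3 s4 r6 r5 f6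
      e1 e2 e3 e4 e5 (by decide)
  · obtain ⟨k1, k2⟩ := core P (a := 4) (b := 3) (c := 5) (d := 6) (e := 7) (by decide) (by decide)
      (by decide) (by decide) (by decide) (by decide) (by decide) (by decide) (by decide)
      (by decide) s4 s3 r5 r6 f5 f6 o1 o2
    refine ⟨by linarith, fun h => ?_⟩
    obtain ⟨e1, e2, e3, e4, e5⟩ := k2 (by linarith)
    exact aconfig P (a := 4) (b := 3) (c := 5) (d := 6) (e := 7) (by decide) (by decide)
      (by decide) (by decide) (by decide) (by decide) (by decide) (by decide) s4 s3 r5 r6 f5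
      e1 e2 e3 e4 e5 (by decide)
  · obtain ⟨k1, k2⟩ := core P (a := 4) (b := 3) (c := 6) (d := 5) (e := 7) (by decide) (by decide)
      (by decide) (by decide) (by decide) (by decide) (by decide) (by decide) (by decide)
      (by decide) s4 s3 r6 r5 f6 f5 o1 o2
    refine ⟨by linarith, fun h => ?_⟩
    obtain ⟨e1, e2, e3, e4, e5⟩ := k2 (by linarith)
    exact aconfig P (a := 4) (b := 3) (c := 6) (d := 5) (e := 7) (by decide) (by decide)
      (by decide) (by decide) (by decide) (by decide) (by decide) (by decide) s4 s3 r6 r5 f6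
      e1 e2 e3 e4 e5 (by decide)

lemma P0_optimal : P0.IsOptimal := fun P' => P0_cost.trans (analysis P').1

lemma optimal_aconfig (P : Schedule r0 prec0) (h : P.IsOptimal) : P.HasAConfig :=
  (analysis P).2 ((h P0).trans P0_cost)

end Pool.Agent.MP_21ba69_lc

end MrgPart1

-- marker of a merged file
example : 731051 + 79041 = 731051 + 79041 := rfl
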